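import Pool.Agent.QSX.StmtsF

set_option autoImplicit false

namespace Pool.Agent.QSX.H27

open Matrix Finset Pool.Agent.QSX

theorem acm : AcmStmt := by
  intro X Y Z h h'
  obtain ⟨T, P, hT, hP, iT, iP, bT, sT⟩ := h
  obtain ⟨T', P', hT', hP', iT', iP', bT', sT'⟩ := h'
  refine ⟨T'.comp (T.codRestrict Y.n hT), P'.comp (P.codRestrict Y.b hP), fun x => hT' _,
    fun a => hP' _, ?_, ?_, ?_, ?_⟩
  · intro x y hxy
    have h1 := iT' hxy
    exact iT (congrArg Subtype.val h1)
  · intro x y hxy
    have h1 := iP' hxy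
    exact iP (congrArg Subtype.val h1)
  · intro x y
    have h1 := bT' (T.codRestrict Y.n hT x) (T.codRestrict Y.n hT y)
    refine Eq.trans ?_ h1
    show T' _ = T' _
    congr 1
    exact Subtype.ext (bT x y)
  · intro a x
    have h1 := sT' (P.codRestrict Y.b hP a) (T.codRestrict Y.n hT x)
    refine Eq.trans ?_ h1
    show T' _ = T' _
    congr 1
    exact Subtype.ext (sT a x)

end Pool.Agent.QSX.H27
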