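import Pool.Agent.QSX.StmtsG
import Pool.Agent.QSX.StmtsB

set_option autoImplicit false

namespace Pool.Agent.QSX.H27

open Matrix Finset Pool.Agent.QSX

theorem pnf (hprt : PrtStmt) : PnfStmt := by
  intro X Y F _ _ P hP ρ A hA
  unfold Dat.nF at hA
  refine Submodule.span_induction (p := fun A _ => part P ρ A ∈ Y.nF F) ?_ ?_ ?_ ?_ hA
  · rintro _ ⟨y, hy, rfl⟩
    have h1 : part P ρ (y.map (algebraMap ℝ F)) = (part P ρ y).map (algebraMap ℝ F) := by
      ext i l
      simp only [part, Matrix.map_apply]
      split_ifs
      · rfl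
      · exact (map_zero _).symm
    show part P ρ (y.map (algebraMap ℝ F)) ∈ Y.nF F
    rw [h1]
    apply Submodule.subset_span
    refine ⟨_, (hprt Y X.b P hP ρ 0 y ⟨hy, ?_⟩).1, rfl⟩
    intro i l h
    exact Y.su y hy i l (Fin.le_def.2 (by omega))
  · have h1 : part P ρ (0 : Matrix (Fin Y.m) (Fin Y.m) F) = 0 := by
      ext i l
      simp only [part, Matrix.zero_apply, ite_self]
    rw [h1]
    exact Submodule.zero_mem _
  · intro x y _ _ hx hy
    have h1 : part P ρ (x + y) = part P ρ x + part P ρ y := by
      ext i l
      simp only [part, Matrix.add_apply]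
      split_ifs
      · rfl
      · exact (add_zero _).symm
    rw [h1]
    exact Submodule.add_mem _ hx hy
  · intro c x _ hx
    have h1 : part P ρ (c • x) = c • part P ρ x := by
      ext i l
      simp only [part, Matrix.smul_apply]
      split_ifs
      · rfl
      · exact (smul_zero _).symm
    rw [h1]
    exact Submodule.smul_mem _ c hx

end Pool.Agent.QSX.H27
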