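import Pool.Agent.QSX.StmtsF

/-!
# Squad QSX, row SPN: the datum of the symplectic group is split
-/

set_option autoImplicit false

namespace Pool.Agent.QSX.H27S

open Matrix Finset Pool.Agent.QSX

/-- the root vectors -/
noncomputable def EE {m : ℕ} (s : Fin m → ℝ) (i j : Fin m) : Matrix (Fin m) (Fin m) ℝ :=
  Matrix.of fun a b => if a = i ∧ b = j then 1 else
    if a = Fin.rev j ∧ b = Fin.rev i then -s i * s j else 0

theorem EE_apply {m : ℕ} (s : Fin m → ℝ) (i j a b : Fin m) : EE s i j a b =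
    if a = i ∧ b = j then 1 else if a = Fin.rev j ∧ b = Fin.rev i then -s i * s j else 0 := rfl

/-- the index set -/
abbrev RI (m : ℕ) : Type := {p : Fin m × Fin m // p.1 < p.2 ∧ (p.1 : ℕ) + p.2 + 1 ≤ m}

variable {m : ℕ} {s : Fin m → ℝ}

theorem EE_row {i j a : Fin m} (h : a ≠ Fin.rev j) (b : Fin m) (M : Matrix (Fin m) (Fin m) ℝ) :
    (EE s i j * M) a b = if a = i then M j b else 0 := by
  rw [Matrix.mul_apply]
  have h1 : ∀ k, EE s i j a k = if a = i ∧ k = j then 1 else 0 := by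
    intro k
    rw [EE_apply, if_neg (c := a = Fin.rev j ∧ k = Fin.rev i) (fun hh => h hh.1)]
  simp only [h1]
  by_cases ha : a = i
  · simp [ha]
  · simp [ha]

theorem EE_su {i j : Fin m} (h : i < j) : SU (EE s i j) := by
  intro a b hab
  rw [EE_apply, if_neg, if_neg]
  · rintro ⟨rfl, rfl⟩
    rw [Fin.le_def, Fin.val_rev, Fin.val_rev] at hab
    rw [Fin.lt_def] at h
    have := i.2
    have := j.2
    omega
  · rintro ⟨rfl, rfl⟩
    exact absurd hab (not_le.2 h)

theorem sq2 (hs : ∀ i, s i * s i = 1) (i j : Fin m) : (-s i * s j) * (-s i * s j) = 1 := by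
  have h1 := hs i
  have h2 := hs j
  linear_combination (s j * s j) * h1 + h2

theorem EE_anti (hs : ∀ i, s i * s i = 1) (hr : ∀ i, s (Fin.rev i) = -s i) (i j a b : Fin m) :
    EE s i j (Fin.rev b) (Fin.rev a) = -s a * s b * EE s i j a b := by
  rw [EE_apply, EE_apply]
  by_cases h1 : a = i ∧ b = j
  · obtain ⟨rfl, rfl⟩ := h1
    rw [if_pos (c := a = a ∧ b = b) ⟨rfl, rfl⟩]
    by_cases h2 : Fin.rev b = a ∧ Fin.rev a = b
    · rw [if_pos h2]
      have h3 : b = Fin.rev a := h2.2.symm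
      have h4 := hs a
      rw [h3, hr]
      linarith
    · rw [if_neg h2, if_pos ⟨rfl, rfl⟩, mul_one]
  · by_cases h2 : a = Fin.rev j ∧ b = Fin.rev i
    · have h3 : Fin.rev b = i ∧ Fin.rev a = j := by
        rw [h2.1, h2.2, Fin.rev_rev, Fin.rev_rev]
        exact ⟨rfl, rfl⟩
      rw [if_pos h3, if_neg h1, if_pos h2, h2.1, h2.2, hr, hr]
      have h4 := sq2 hs i j
      linear_combination -h4
    · have h3 : ¬ (Fin.rev b = i ∧ Fin.rev a = j) := by
        rintro ⟨h4, h5⟩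
        refine h2 ⟨?_, ?_⟩
        · rw [← h5, Fin.rev_rev]
        · rw [← h4, Fin.rev_rev]
      have h4 : ¬ (Fin.rev b = Fin.rev j ∧ Fin.rev a = Fin.rev i) := by
        rintro ⟨h5, h6⟩
        exact h1 ⟨Fin.rev_injective h6, Fin.rev_injective h5⟩
      rw [if_neg h3, if_neg h4, if_neg h1, if_neg h2, mul_zero]

/-- the entries in the fundamental region -/
theorem EE_fund (l : RI m) (a b : Fin m) (h2 : (a : ℕ) + b + 1 ≤ m) :
    EE s l.1.1 l.1.2 a b = if a = l.1.1 ∧ b = l.1.2 then 1 else 0 := by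
  obtain ⟨⟨i, j⟩, h3, h4⟩ := l
  simp only at h3 h4
  rw [EE_apply]
  by_cases h5 : a = i ∧ b = j
  · rw [if_pos h5, if_pos h5]
  · rw [if_neg h5, if_neg (c := a = Fin.rev j ∧ b = Fin.rev i), if_neg h5]
    rintro ⟨rfl, rfl⟩
    apply h5
    rw [Fin.val_rev, Fin.val_rev] at h2
    have := i.2
    have := j.2
    constructor
    · rw [Fin.ext_iff, Fin.val_rev]; omega
    · rw [Fin.ext_iff, Fin.val_rev]; omega

theorem sum_fund (g : RI m → ℝ) (l : RI m) :
    (∑ l' : RI m, g l' • EE s l'.1.1 l'.1.2) l.1.1 l.1.2 = g l := by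
  rw [Matrix.sum_apply, Finset.sum_eq_single l]
  · rw [Matrix.smul_apply, EE_fund l _ _ l.2.2, if_pos ⟨rfl, rfl⟩, smul_eq_mul, mul_one]
  · intro l' _ hne
    rw [Matrix.smul_apply, EE_fund l' _ _ l.2.2, if_neg, smul_zero]
    rintro ⟨h1, h2⟩
    exact hne (Subtype.ext (Prod.ext h1.symm h2.symm))
  · intro h
    exact absurd (mem_univ _) h

theorem sum_su (g : RI m → ℝ) : SU (∑ l' : RI m, g l' • EE s l'.1.1 l'.1.2) := by
  intro a b hab
  rw [Matrix.sum_apply]
  refine Finset.sum_eq_zero fun l _ => ?_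
  rw [Matrix.smul_apply, EE_su l.2.1 a b hab, smul_zero]

theorem sum_anti (hs : ∀ i, s i * s i = 1) (hr : ∀ i, s (Fin.rev i) = -s i) (g : RI m → ℝ)
    (a b : Fin m) :
    (∑ l' : RI m, g l' • EE s l'.1.1 l'.1.2) (Fin.rev b) (Fin.rev a) =
      -s a * s b * (∑ l' : RI m, g l' • EE s l'.1.1 l'.1.2) a b := by
  rw [Matrix.sum_apply, Matrix.sum_apply, Finset.mul_sum]
  refine Finset.sum_congr rfl fun l _ => ?_
  rw [Matrix.smul_apply, Matrix.smul_apply, EE_anti hs hr, smul_eq_mul, smul_eq_mul]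
  ring

/-- a matrix of the Lie algebra is determined by the fundamental entries -/
theorem ext_fund (hs : ∀ i, s i * s i = 1) {x y : Matrix (Fin m) (Fin m) ℝ} (hx : SU x)
    (hy : SU y) (ax : ∀ a b, x (Fin.rev b) (Fin.rev a) = -s a * s b * x a b)
    (ay : ∀ a b, y (Fin.rev b) (Fin.rev a) = -s a * s b * y a b)
    (h : ∀ l : RI m, x l.1.1 l.1.2 = y l.1.1 l.1.2) : x = y := by
  have hf : ∀ a b : Fin m, a < b → (a : ℕ) + b + 1 ≤ m → x a b = y a b := fun a b h1 h2 =>
    h ⟨(a, b), h1, h2⟩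
  ext a b
  rcases le_or_gt b a with h1 | h1
  · rw [hx a b h1, hy a b h1]
  · by_cases h2 : (a : ℕ) + b + 1 ≤ m
    · exact hf a b h1 h2
    · have h3 := ax a b
      have h4 := ay a b
      have h5 : x (Fin.rev b) (Fin.rev a) = y (Fin.rev b) (Fin.rev a) := by
        refine hf _ _ ?_ ?_
        · rw [Fin.lt_def] at h1
          rw [Fin.lt_def, Fin.val_rev, Fin.val_rev]
          have := a.2
          have := b.2
          omega
        · rw [Fin.val_rev, Fin.val_rev]
          have := a.2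
          have := b.2
          omega
      rw [h3, h4] at h5
      have h6 := sq2 hs a b
      linear_combination (-s a * s b) * h5 - (x a b - y a b) * h6

/-- the vectors of `b` -/
def vv (p : Fin m) : Fin m → ℝ := fun a =>
  (if a = p then 1 else 0) - (if a = Fin.rev p then 1 else 0)

theorem vv_anti (p a : Fin m) : vv p (Fin.rev a) = - vv p a := by
  unfold vv
  rw [neg_sub]
  congr 1
  · refine if_congr ?_ rfl rfl
    rw [Fin.rev_eq_iff]
  · refine if_congr ?_ rfl rfl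
    rw [Fin.rev_inj]

theorem vv_of_ne {p a : Fin m} (h1 : a ≠ p) (h2 : a ≠ Fin.rev p) : vv p a = 0 := by
  unfold vv
  rw [if_neg h1, if_neg h2, sub_zero]

theorem vv_self {p : Fin m} (h2 : p ≠ Fin.rev p) : vv p p = 1 := by
  unfold vv
  rw [if_pos rfl, if_neg h2, sub_zero]

theorem vv_le {p a : Fin m} (h1 : a ≠ p) : vv p a ≤ 0 := by
  unfold vv
  rw [if_neg h1]
  split <;> norm_num

theorem wt_aux (c : Fin m → ℝ) (hc : ∀ i, c (Fin.rev i) = - c i) (i j : Fin m) :
    diagonal c * EE s i j - EE s i j * diagonal c = (c i - c j) • EE s i j := by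
  ext a b
  rw [Matrix.sub_apply, Matrix.diagonal_mul, Matrix.mul_diagonal, Matrix.smul_apply, smul_eq_mul,
    EE_apply]
  by_cases h1 : a = i ∧ b = j
  · rw [if_pos h1, h1.1, h1.2]
    ring
  · by_cases h2 : a = Fin.rev j ∧ b = Fin.rev i
    · rw [if_neg h1, if_pos h2, h2.1, h2.2, hc, hc]
      ring
    · rw [if_neg h1, if_neg h2]
      ring

theorem ne1 {x y : Fin m} (h : (x : ℕ) ≠ y) : x ≠ y := fun h' => h (by rw [h'])

/-- `2 k ≠ 2 i + 1` -/
theorem ne_rev (he : Even m) (p : Fin m) : p ≠ Fin.rev p := by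
  intro h
  rw [Fin.ext_iff, Fin.val_rev] at h
  obtain ⟨r, hr⟩ := he
  have := p.2
  omega

/-- the roots are not proportional -/
theorem nonprop_aux (he : Even m) {l l' : RI m} (hne : l ≠ l') (t : ℝ)
    (h : ∀ c : Fin m → ℝ, (∀ i, c (Fin.rev i) = - c i) →
      c l.1.1 - c l.1.2 = t * (c l'.1.1 - c l'.1.2)) : False := by
  obtain ⟨⟨i, j⟩, h1, h2⟩ := l
  obtain ⟨⟨i', j'⟩, h1', h2'⟩ := l'
  simp only at h1 h2 h1' h2' h
  have hv := fun p : Fin m => h (vv p) (vv_anti p)
  rw [Fin.lt_def] at h1 h1'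
  have hr := ne_rev he
  have A : 1 ≤ vv i i - vv i j := by
    have h3 := vv_le (p := i) (a := j) (ne1 (by omega))
    rw [vv_self (hr i)]
    linarith
  have A' : 1 ≤ vv i' i' - vv i' j' := by
    have h3 := vv_le (p := i') (a := j') (ne1 (by omega))
    rw [vv_self (hr i')]
    linarith
  rcases lt_trichotomy (i : ℕ) i' with h3 | h3 | h3
  · have B : vv i i' - vv i j' = 0 := by
      rw [vv_of_ne (ne1 (by omega)) (ne1 (by rw [Fin.val_rev]; omega)), vv_of_ne (ne1 (by omega))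
        (ne1 (by rw [Fin.val_rev]; omega)), sub_zero]
    have h4 := hv i
    rw [B] at h4
    linarith
  · have e : i = i' := Fin.ext h3
    subst e
    have h4 := hv i
    have ht : 0 < t := by
      by_contra hcon
      have : t * (vv i i - vv i j') ≤ 0 :=
        mul_nonpos_of_nonpos_of_nonneg (not_lt.1 hcon) (by linarith)
      linarith
    have hj : j ≠ j' := by
      rintro rfl
      exact hne rfl
    by_cases h5 : j = Fin.rev i
    · have h6 : j' ≠ Fin.rev i := fun h7 => hj (h5.trans h7.symm)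
      have h7 := hv j'
      have e1 : vv j' i = 0 := by
        refine vv_of_ne (ne1 (by omega)) fun h8 => h6 ?_
        rw [h8, Fin.rev_rev]
      have e2 : vv j' j = 0 := by
        refine vv_of_ne hj ?_
        rw [h5]
        intro h8
        have h9 := Fin.rev_injective h8
        rw [h9] at h1'
        omega
      rw [e1, e2, vv_self (hr j')] at h7
      linarith
    · have h7 := hv j
      have e1 : vv j i = 0 := by
        refine vv_of_ne (ne1 (by omega)) fun h8 => h5 ?_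
        rw [h8, Fin.rev_rev]
      rw [e1, vv_self (hr j)] at h7
      have h8 := vv_le (p := j) (Ne.symm hj)
      have h9 : 0 ≤ t * (0 - vv j j') := mul_nonneg ht.le (by linarith)
      linarith
  · have B : vv i' i - vv i' j = 0 := by
      rw [vv_of_ne (ne1 (by omega)) (ne1 (by rw [Fin.val_rev]; omega)), vv_of_ne (ne1 (by omega))
        (ne1 (by rw [Fin.val_rev]; omega)), sub_zero]
    have h4 := hv i'
    rw [B] at h4
    have ht : t = 0 := by
      rcases mul_eq_zero.1 h4.symm with h5 | h5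
      · exact h5
      · linarith
    have h5 := hv i
    rw [ht, zero_mul] at h5
    linarith

theorem sep_aux (he : Even m) (c : Fin m → ℝ) (hc : ∀ i, c (Fin.rev i) = - c i)
    (h : ∀ l : RI m, c l.1.1 - c l.1.2 = 0) : c = 0 := by
  have h1 : ∀ i : Fin m, (i : ℕ) < (Fin.rev i : ℕ) → c i = 0 := by
    intro i hi
    have h2 := h ⟨(i, Fin.rev i), hi, by
      simp only [Fin.val_rev]; have := i.2; omega⟩
    simp only at h2
    rw [hc] at h2
    linarith
  funext i
  show c i = 0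
  rcases lt_trichotomy (i : ℕ) (Fin.rev i : ℕ) with h2 | h2 | h2
  · exact h1 i h2
  · exact absurd (Fin.ext h2) (ne_rev he i)
  · have h3 := h1 (Fin.rev i) (by rw [Fin.rev_rev]; exact h2)
    rw [hc] at h3
    linarith

theorem climb_aux (he : Even m) (hs : ∀ i, s i * s i = 1) (hr : ∀ i, s (Fin.rev i) = -s i)
    (l : RI m) (hl : ¬ ((l.1.1 : ℕ) = 0 ∧ (l.1.2 : ℕ) + 1 = m)) : ∃ l' : RI m, l' ≠ l ∧
      EE s l.1.1 l.1.2 * EE s l'.1.1 l'.1.2 - EE s l'.1.1 l'.1.2 * EE s l.1.1 l.1.2 ≠ 0 := by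
  obtain ⟨⟨i, j⟩, h1, h2⟩ := l
  simp only at h1 h2 hl ⊢
  rw [Fin.lt_def] at h1
  have hi := i.2
  have hj := j.2
  obtain ⟨z, hz⟩ : ∃ z : Fin m, (z : ℕ) = 0 := ⟨⟨0, by omega⟩, rfl⟩
  by_cases h3 : (i : ℕ) = 0
  · have h4 : (j : ℕ) + 1 ≠ m := fun h => hl ⟨h3, h⟩
    have hiz : i = z := Fin.ext (by rw [h3, hz])
    subst hiz
    refine ⟨⟨(i, Fin.rev j), by rw [Fin.lt_def, Fin.val_rev]; simp only; omega, by
      simp only [Fin.val_rev]; omega⟩, ?_, ?_⟩
    · intro heq
      have h5 : Fin.rev j = j := congrArg (fun q : RI m => q.1.2) heq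
      exact ne_rev he j h5.symm
    · intro h0
      have h6 := congrFun (congrFun h0 i) (Fin.rev i)
      simp only at h6
      rw [Matrix.sub_apply, EE_row (ne1 (by rw [Fin.val_rev]; omega)), if_pos rfl,
        EE_row (ne1 (by rw [Fin.rev_rev]; omega)), if_pos rfl, Matrix.zero_apply, EE_apply,
        EE_apply, if_neg (c := j = i ∧ Fin.rev i = Fin.rev j) (fun hh => by
          rw [hh.1] at h1; omega), if_pos ⟨(Fin.rev_rev j).symm, rfl⟩,
        if_neg (c := Fin.rev j = i ∧ Fin.rev i = j) (fun hh => by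
          have h7 := congrArg Fin.val hh.1
          rw [Fin.val_rev] at h7; omega), if_pos ⟨rfl, rfl⟩, hr] at h6
      have h7 : s i * s j = 0 := by linarith
      have h8 := sq2 hs i j
      have h9 : (-s i * s j) * (-s i * s j) = (s i * s j) * (s i * s j) := by ring
      rw [h9, h7] at h8
      norm_num at h8
  · refine ⟨⟨(z, i), by rw [Fin.lt_def]; simp only; omega, by simp only; omega⟩, ?_, ?_⟩
    · intro heq
      have h5 : z = i := congrArg (fun q : RI m => q.1.1) heq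
      rw [← h5] at h3
      exact h3 hz
    · intro h0
      have h6 := congrFun (congrFun h0 z) j
      simp only at h6
      rw [Matrix.sub_apply, EE_row (ne1 (by rw [Fin.val_rev]; omega)), if_neg (ne1 (by omega)),
        EE_row (ne1 (by rw [Fin.val_rev]; omega)), if_pos rfl, Matrix.zero_apply, EE_apply,
        if_pos ⟨rfl, rfl⟩] at h6
      norm_num at h6

theorem EE_rat (hq : ∀ i, ∃ q : ℚ, s i = (q : ℝ)) (i j a b : Fin m) :
    ∃ q : ℚ, EE s i j a b = (q : ℝ) := by
  rw [EE_apply]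
  by_cases h1 : a = i ∧ b = j
  · rw [if_pos h1]
    exact ⟨1, by norm_num⟩
  · rw [if_neg h1]
    by_cases h2 : a = Fin.rev j ∧ b = Fin.rev i
    · rw [if_pos h2]
      obtain ⟨q, hq1⟩ := hq i
      obtain ⟨r, hr1⟩ := hq j
      exact ⟨-q * r, by rw [hq1, hr1]; push_cast; ring⟩
    · rw [if_neg h2]
      exact ⟨0, by norm_num⟩

/-- the signs -/
noncomputable def sg (k : ℕ) : Fin (2 * k) → ℝ := fun i => if (i : ℕ) < k then 1 else -1

theorem sg_sq (k : ℕ) (i : Fin (2 * k)) : sg k i * sg k i = 1 := by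
  unfold sg
  split_ifs <;> norm_num

theorem sg_rev (k : ℕ) (i : Fin (2 * k)) : sg k (Fin.rev i) = -sg k i := by
  unfold sg
  rw [Fin.val_rev]
  have := i.2
  by_cases h : (i : ℕ) < k
  · rw [if_pos h, if_neg (by omega)]
  · rw [if_neg h, if_pos (by omega), neg_neg]

theorem sg_rat (k : ℕ) (i : Fin (2 * k)) : ∃ q : ℚ, sg k i = (q : ℝ) := by
  unfold sg
  by_cases h : (i : ℕ) < k
  · rw [if_pos h]
    exact ⟨1, by norm_num⟩
  · rw [if_neg h]
    exact ⟨-1, by norm_num⟩

/-- the linear space `b` of the datum, with the type written out -/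
def bSP (k : ℕ) : Submodule ℝ (Fin (2 * k) → ℝ) := (datSP k).b

/-- the Lie algebra `n` of the datum, with the type written out -/
def nSP (k : ℕ) : Submodule ℝ (Matrix (Fin (2 * k)) (Fin (2 * k)) ℝ) := (datSP k).n

theorem mem_bSP {k : ℕ} {c : Fin (2 * k) → ℝ} : c ∈ bSP k ↔ ∀ i, c (Fin.rev i) = - c i := Iff.rfl

theorem mem_nSP {k : ℕ} {x : Matrix (Fin (2 * k)) (Fin (2 * k)) ℝ} : x ∈ nSP k ↔ SU x ∧
    ∀ i j, x (Fin.rev j) (Fin.rev i) = - sg k i * sg k j * x i j := Iff.rfl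

theorem span_aux (k : ℕ) :
    Submodule.span ℝ (Set.range (fun l : RI (2 * k) => EE (sg k) l.1.1 l.1.2)) = nSP k := by
  apply le_antisymm
  · rw [Submodule.span_le]
    rintro _ ⟨l, rfl⟩
    exact mem_nSP.2 ⟨EE_su l.2.1, fun a b => EE_anti (sg_sq k) (sg_rev k) _ _ a b⟩
  · intro x hx
    rw [mem_nSP] at hx
    have h3 : x = ∑ l : RI (2 * k), x l.1.1 l.1.2 • EE (sg k) l.1.1 l.1.2 := by
      refine ext_fund (sg_sq k) hx.1 (sum_su _) hx.2 (sum_anti (sg_sq k) (sg_rev k) _) fun l => ?_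
      rw [sum_fund]
    rw [h3]
    exact Submodule.sum_mem _ fun l _ =>
      Submodule.smul_mem _ _ (Submodule.subset_span ⟨l, rfl⟩)

theorem lin_aux (s : Fin m → ℝ) : LinearIndependent ℝ (fun l : RI m => EE s l.1.1 l.1.2) := by
  rw [Fintype.linearIndependent_iff]
  intro g hg l
  have h1 := congrFun (congrFun hg l.1.1) l.1.2
  rw [sum_fund] at h1
  exact h1

/-- the root of an index -/
noncomputable def rr (k : ℕ) (l : RI (2 * k)) : bSP k →ₗ[ℝ] ℝ where
  toFun c := (c : Fin (2 * k) → ℝ) l.1.1 - (c : Fin (2 * k) → ℝ) l.1.2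
  map_add' c d := by
    rw [Submodule.coe_add, Pi.add_apply, Pi.add_apply]
    ring
  map_smul' r c := by
    rw [Submodule.coe_smul, Pi.smul_apply, Pi.smul_apply, smul_eq_mul, smul_eq_mul, RingHom.id_apply,
      smul_eq_mul]
    ring

theorem rr_apply (k : ℕ) (l : RI (2 * k)) (c : bSP k) :
    rr k l c = (c : Fin (2 * k) → ℝ) l.1.1 - (c : Fin (2 * k) → ℝ) l.1.2 := rfl

theorem wt_rr (k : ℕ) (l : RI (2 * k)) (c : bSP k) :
    diagonal (c : Fin (2 * k) → ℝ) * EE (sg k) l.1.1 l.1.2 -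
      EE (sg k) l.1.1 l.1.2 * diagonal (c : Fin (2 * k) → ℝ) =
      rr k l c • EE (sg k) l.1.1 l.1.2 :=
  wt_aux (c : Fin (2 * k) → ℝ) (mem_bSP.1 c.2) l.1.1 l.1.2

theorem pos_rr (k : ℕ) : ∃ a : bSP k, ∀ l, 0 < rr k l a := by
  refine ⟨⟨fun i => (((2 * k : ℕ) : ℝ) - 1) / 2 - ((i : ℕ) : ℝ), ?_⟩, ?_⟩
  · rw [mem_bSP]
    intro i
    have h1 : ((Fin.rev i : ℕ) : ℝ) = ((2 * k : ℕ) : ℝ) - ((i : ℕ) + 1) := by
      rw [Fin.val_rev, Nat.cast_sub (by have := i.2; omega), Nat.cast_add, Nat.cast_one]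
    rw [h1]
    ring
  · intro l
    rw [rr_apply]
    simp only
    have h1 : ((l.1.1 : ℕ) : ℝ) < ((l.1.2 : ℕ) : ℝ) := by exact_mod_cast l.2.1
    linarith

theorem sep_rr (k : ℕ) (a : bSP k) (ha : ∀ l, rr k l a = 0) : a = 0 :=
  Subtype.ext (sep_aux (even_two_mul k) (a : Fin (2 * k) → ℝ) (mem_bSP.1 a.2) fun l => ha l)

theorem nonprop_rr {k : ℕ} (l l' : RI (2 * k)) (hne : l ≠ l') (t : ℝ) : rr k l ≠ t • rr k l' := by
  intro ht
  refine nonprop_aux (even_two_mul k) hne t fun c hc => ?_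
  have h1 := LinearMap.congr_fun ht ⟨c, mem_bSP.2 hc⟩
  rw [LinearMap.smul_apply, rr_apply, rr_apply, smul_eq_mul] at h1
  exact h1

theorem scal_rr (k : ℕ) (κ : Unit → ℝ) : ∃ S : bSP k →ₗ[ℝ] bSP k,
    ∀ l a, rr k l (S a) = κ () * rr k l a :=
  ⟨κ () • LinearMap.id, fun l a => by
    rw [LinearMap.smul_apply, LinearMap.id_apply, map_smul, smul_eq_mul]⟩

/-- **SPN**. -/
theorem spn : SpnStmt := by
  intro k hk
  exact ⟨{
    ι := RI (2 * k)
    fin := inferInstance
    dec := inferInstance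
    e := fun l => (EE (sg k) l.1.1 l.1.2 : Matrix (Fin (2 * k)) (Fin (2 * k)) ℝ)
    rat := fun l i j => EE_rat (sg_rat k) l.1.1 l.1.2 i j
    span_e := span_aux k
    lin := lin_aux (sg k)
    rt := rr k
    wt := wt_rr k
    pos := pos_rr k
    sep := sep_rr k
    nonprop := nonprop_rr
    J := Unit
    comp := fun _ => ()
    top := fun _ => ⟨(⟨0, by omega⟩, ⟨2 * k - 1, by omega⟩), by
      rw [Fin.lt_def]; simp only; omega, by simp only; omega⟩
    comp_top := fun _ => rfl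
    climb := by
      intro l hl
      refine climb_aux (even_two_mul k) (sg_sq k) (sg_rev k) l ?_
      rintro ⟨h1, h2⟩
      apply hl
      refine Subtype.ext (Prod.ext (Fin.ext h1) (Fin.ext ?_))
      show (l.1.2 : ℕ) = 2 * k - 1
      omega
    scal := fun κ _ => scal_rr k κ }⟩

end Pool.Agent.QSX.H27S
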